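import Mathlib

/-!
A semigroup on which o-conjugacy is a congruence with a quotient that is not cancellative.
-/

namespace Pool.Agent.Results.MP_472d46_al.NotCancellative

/-- o-conjugacy on a semigroup `S`: there are `g`, `h` in `S` with an identity adjoined such that
`a g = g b` and `b h = h a`. -/
def OConj {S : Type} [Semigroup S] (a b : S) : Prop :=
  ∃ g h : WithOne S, (a : WithOne S) * g = g * (b : WithOne S) ∧ (b : WithOne S) * h = h * (a : WithOne S)

/-- a well-founded tree type -/
inductive Y : Type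
  | z : Y
  | up (y : Y) : Y
  | lim (s : ℕ → Y) : Y

/-- strict subterm relation -/
inductive Lt : Y → Y → Prop
  | up (y : Y) : Lt y (Y.up y)
  | upt (x y : Y) : Lt x y → Lt x (Y.up y)
  | lim (s : ℕ → Y) (k : ℕ) : Lt (s k) (Y.lim s)
  | limt (x : Y) (s : ℕ → Y) (k : ℕ) : Lt x (s k) → Lt x (Y.lim s)

theorem Lt.trans {x y w : Y} (h1 : Lt x y) (h2 : Lt y w) : Lt x w := by
  induction h2 with
  | up y => exact Lt.upt _ _ h1
  | upt x' y' _ ih => exact Lt.upt _ _ (ih h1)
  | lim s k => exact Lt.limt _ _ k h1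
  | limt x' s k _ ih => exact Lt.limt _ _ k (ih h1)

theorem Lt.wf : WellFounded Lt := by
  refine ⟨fun y => ?_⟩
  induction y with
  | z => exact ⟨_, fun x h => by cases h⟩
  | up y ih =>
    refine ⟨_, fun x h => ?_⟩
    cases h with
    | up => exact ih
    | upt _ _ h => exact ih.inv h
  | lim s ih =>
    refine ⟨_, fun x h => ?_⟩
    cases h with
    | lim _ k => exact ih k
    | limt _ _ k h => exact (ih k).inv h

theorem Lt.irrefl (y : Y) : ¬ Lt y y := fun h => Lt.wf.irrefl.irrefl y h

/-- the elements of the ideal: injective strictly increasing maps avoiding limits -/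
def Good (f : Y → Y) : Prop :=
  Function.Injective f ∧ (∀ y, Lt y (f y)) ∧ ∀ y s, f y ≠ Y.lim s

theorem Good.comp {f g : Y → Y} (hf : Good f) (hg : Good g) : Good (f ∘ g) :=
  ⟨hf.1.comp hg.1, fun y => (hg.2.1 y).trans (hf.2.1 _), fun y s => hf.2.2 _ s⟩

theorem Good.iter {f : Y → Y} (hf : Good f) (k : ℕ) (y : Y) : Lt y (f^[k + 1] y) := by
  induction k with
  | zero => exact hf.2.1 y
  | succ k ih => rw [Function.iterate_succ_apply']; exact ih.trans (hf.2.1 _)

/-- every point is an iterate of a point outside the range, uniquely -/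
theorem Good.rep {f : Y → Y} (hf : Good f) (y : Y) :
    ∃ (k : ℕ) (p : Y), (∀ x, f x ≠ p) ∧ f^[k] p = y := by
  induction y using Lt.wf.induction with
  | _ y ih =>
    by_cases h : ∃ x, f x = y
    · obtain ⟨x, hx⟩ := h
      obtain ⟨k, p, hp, hk⟩ := ih x (by rw [← hx]; exact hf.2.1 x)
      exact ⟨k + 1, p, hp, by rw [Function.iterate_succ_apply', hk, hx]⟩
    · push Not at h
      exact ⟨0, y, h, rfl⟩

theorem Good.rep_unique {f : Y → Y} (hf : Good f) {k l : ℕ} {p q : Y} (hp : ∀ x, f x ≠ p)
    (hq : ∀ x, f x ≠ q) (h : f^[k] p = f^[l] q) : k = l ∧ p = q := by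
  induction k generalizing l with
  | zero =>
    cases l with
    | zero => exact ⟨rfl, h⟩
    | succ l =>
      rw [Function.iterate_succ_apply'] at h
      exact absurd h.symm (hp _)
  | succ k ih =>
    cases l with
    | zero =>
      rw [Function.iterate_succ_apply'] at h
      exact absurd h (hq _)
    | succ l =>
      rw [Function.iterate_succ_apply', Function.iterate_succ_apply'] at h
      obtain ⟨h1, h2⟩ := ih (hf.1 h)
      exact ⟨by rw [h1], h2⟩

/-- Any two good maps are intertwined by a good map. -/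
theorem exists_intertwiner {a b : Y → Y} (ha : Good a) (hb : Good b) :
    ∃ g : Y → Y, Good g ∧ a ∘ g = g ∘ b := by
  choose K P hP hKP using hb.rep
  have hnl : ∀ s x, a x ≠ Y.lim s := fun s x => ha.2.2 x s
  refine ⟨fun y => a^[K y + 1] (Y.lim fun j => b^[j] (P y)), ⟨?_, ?_, ?_⟩, ?_⟩
  · intro x y hxy
    simp only at hxy
    obtain ⟨h1, h2⟩ := ha.rep_unique (hnl _) (hnl _) hxy
    have h3 : P x = P y := by
      have := congrFun (Y.lim.inj h2) 0
      exact this
    rw [← hKP x, ← hKP y, h3, Nat.succ_injective h1]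
  · intro y
    have h1 : Lt y (Y.lim fun j => b^[j] (P y)) := by
      conv_lhs => rw [← hKP y]
      exact Lt.lim (fun j => b^[j] (P y)) (K y)
    exact h1.trans (ha.iter _ _)
  · intro y s
    simp only
    rw [Function.iterate_succ_apply']
    exact ha.2.2 _ _
  · funext y
    have h1 : b^[K (b y)] (P (b y)) = b^[K y + 1] (P y) := by
      rw [hKP, Function.iterate_succ_apply', hKP]
    obtain ⟨h2, h3⟩ := hb.rep_unique (hP _) (hP _) h1
    simp only [Function.comp_apply]
    rw [h2, h3, Function.iterate_succ_apply' a (K y + 1)]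

/-- the semigroup: the identity and the good maps -/
def SS : Type := {f : Y → Y // f = id ∨ Good f}

instance : Monoid SS where
  mul f g := ⟨f.1 ∘ g.1, by
    rcases f.2 with hf | hf
    · rw [hf]; exact g.2
    · rcases g.2 with hg | hg
      · rw [hg]; exact Or.inr hf
      · exact Or.inr (hf.comp hg)⟩
  one := ⟨id, Or.inl rfl⟩
  mul_assoc f g h := rfl
  one_mul f := rfl
  mul_one f := rfl

theorem mul_val (f g : SS) : (f * g).1 = f.1 ∘ g.1 := rfl

theorem Good.ne_id {f : Y → Y} (hf : Good f) : f ≠ id := by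
  intro h
  have := hf.2.1 Y.z
  rw [h] at this
  exact Lt.irrefl _ this

theorem inj_of (f : SS) : Function.Injective f.1 := by
  rcases f.2 with hf | hf
  · rw [hf]; exact Function.injective_id
  · exact hf.1

/-- description of o-conjugacy -/
theorem oconj_iff (a b : SS) : OConj a b ↔ (Good a.1 ↔ Good b.1) := by
  constructor
  · have key : ∀ a b : SS, (∃ g : WithOne SS, (a : WithOne SS) * g = g * (b : WithOne SS)) →
        Good b.1 → Good a.1 := by
      rintro a b ⟨g, hg⟩ hb
      by_cases hg1 : g = 1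
      · rw [hg1, mul_one, one_mul, WithOne.coe_inj] at hg
        rw [hg]; exact hb
      · obtain ⟨g, rfl⟩ := WithOne.ne_one_iff_exists.mp hg1
        rw [← WithOne.coe_mul, ← WithOne.coe_mul, WithOne.coe_inj] at hg
        rcases a.2 with ha | ha
        · exfalso
          have h1 := congrArg Subtype.val hg
          rw [mul_val, mul_val, ha] at h1
          apply hb.ne_id
          funext y
          exact (inj_of g (congrFun h1 y)).symm
        · exact ha
    rintro ⟨g, h, hg, hh⟩
    exact ⟨key b a ⟨h, hh⟩, key a b ⟨g, hg⟩⟩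
  · intro h
    by_cases ha : Good a.1
    · obtain ⟨g, hg, hag⟩ := exists_intertwiner ha (h.mp ha)
      obtain ⟨k, hk, hbk⟩ := exists_intertwiner (h.mp ha) ha
      obtain ⟨G, hG⟩ : ∃ G : SS, G.1 = g := ⟨⟨g, Or.inr hg⟩, rfl⟩
      obtain ⟨H, hH⟩ : ∃ H : SS, H.1 = k := ⟨⟨k, Or.inr hk⟩, rfl⟩
      refine ⟨(G : WithOne SS), (H : WithOne SS), ?_, ?_⟩
      · rw [← WithOne.coe_mul, ← WithOne.coe_mul, WithOne.coe_inj]
        exact Subtype.ext (by rw [mul_val, mul_val, hG]; exact hag)
      · rw [← WithOne.coe_mul, ← WithOne.coe_mul, WithOne.coe_inj]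
        exact Subtype.ext (by rw [mul_val, mul_val, hH]; exact hbk)
    · have ha' : a.1 = id := a.2.resolve_right ha
      have hb' : b.1 = id := b.2.resolve_right fun hb => ha (h.mpr hb)
      have : a = b := Subtype.ext (ha'.trans hb'.symm)
      subst this
      exact ⟨1, 1, by simp, by simp⟩

theorem good_mul_iff (a b : SS) : Good (a * b).1 ↔ (Good a.1 ∨ Good b.1) := by
  rw [mul_val]
  constructor
  · intro h
    by_contra hcon
    push Not at hcon
    have ha' : a.1 = id := a.2.resolve_right hcon.1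
    have hb' : b.1 = id := b.2.resolve_right hcon.2
    rw [ha', hb'] at h
    exact h.ne_id rfl
  · intro h
    rcases a.2 with ha | ha
    · rcases h with h | h
      · exact absurd ha h.ne_id
      · rw [ha]; exact h
    · rcases b.2 with hb | hb
      · rw [hb]; exact ha
      · exact ha.comp hb

/-- the congruence -/
def cc : Con SS where
  r := OConj
  iseqv := by
    refine ⟨fun a => ?_, fun {a b} h => ?_, fun {a b c} h1 h2 => ?_⟩
    · rw [oconj_iff]
    · rw [oconj_iff] at h ⊢; exact h.symm
    · rw [oconj_iff] at h1 h2 ⊢; exact h1.trans h2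
  mul' := by
    intro a b c d h1 h2
    rw [oconj_iff] at h1 h2 ⊢
    rw [good_mul_iff, good_mul_iff, h1, h2]

theorem good_up : Good Y.up :=
  ⟨fun a b h => Y.up.inj h, fun y => Lt.up y, fun y s h => by cases h⟩

/-- There is a semigroup on which o-conjugacy is a congruence such that the quotient is not
cancellative. -/
theorem result : ∃ (S : Type) (_ : Semigroup S) (c : Con S), (∀ a b : S, c a b ↔ OConj a b) ∧
    ¬ IsCancelMul c.Quotient := by
  refine ⟨SS, inferInstance, cc, fun a b => Iff.rfl, fun hcan => ?_⟩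
  obtain ⟨u, hu⟩ : ∃ u : SS, u = ⟨Y.up, Or.inr good_up⟩ := ⟨_, rfl⟩
  have h1 : ((1 : SS) : cc.Quotient) * (u : cc.Quotient) = (u : cc.Quotient) * (u : cc.Quotient) := by
    rw [← Con.coe_mul, ← Con.coe_mul, Con.eq]
    change OConj _ _
    rw [oconj_iff, good_mul_iff, good_mul_iff, hu]
    simp [good_up]
  have h2 := mul_right_cancel h1
  rw [Con.eq] at h2
  change OConj _ _ at h2
  rw [oconj_iff, hu] at h2
  exact (h2.mpr good_up).ne_id rfl

end Pool.Agent.Results.MP_472d46_al.NotCancellative
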